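/-
The Pixley-Roy hyperspace of the real line with the cofinite topology is selectively highly
divergent, although the space itself is not.
-/
import Mathlib

set_option autoImplicit false

open Set Filter Topology

namespace Pool.Agent.Results.MP_f85c9e_gt.CofiniteSHD

universe u

/-- `X` is selectively highly divergent: for every sequence of nonempty open sets `U n` one can
choose points `x n ∈ U n` such that no subsequence of `(x n)` converges to a point of `X`. -/
def SHD (X : Type u) [TopologicalSpace X] : Prop :=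
  ∀ U : ℕ → Set X, (∀ n, IsOpen (U n) ∧ (U n).Nonempty) →
    ∃ x : ℕ → X, (∀ n, x n ∈ U n) ∧
      ∀ φ : ℕ → ℕ, StrictMono φ → ∀ p : X, ¬ Tendsto (fun k => x (φ k)) atTop (𝓝 p)

/-- The points of the Pixley-Roy hyperspace: the nonempty finite subsets of `X`. -/
def PixleyRoy (X : Type u) : Type u := {A : Set X // A.Finite ∧ A.Nonempty}

/-- The set `[F, V] = {H : F ⊆ H ⊆ V}`. -/
def box {X : Type u} (F : PixleyRoy X) (V : Set X) : Set (PixleyRoy X) :=
  {H | F.1 ⊆ H.1 ∧ H.1 ⊆ V}

/-- The Pixley-Roy topology: the sets `[F, V]`, `V` open and `F ⊆ V`, form a local base at `F`. -/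
instance (X : Type u) [TopologicalSpace X] : TopologicalSpace (PixleyRoy X) where
  IsOpen O := ∀ F ∈ O, ∃ V : Set X, IsOpen V ∧ F.1 ⊆ V ∧ box F V ⊆ O
  isOpen_univ := fun F _ => ⟨univ, isOpen_univ, subset_univ _, subset_univ _⟩
  isOpen_inter := by
    rintro O P hO hP F ⟨hFO, hFP⟩
    obtain ⟨V, hV, h1, h2⟩ := hO F hFO
    obtain ⟨W, hW, h3, h4⟩ := hP F hFP
    refine ⟨V ∩ W, hV.inter hW, subset_inter h1 h3, ?_⟩
    rintro H ⟨hH1, hH2⟩
    exact ⟨h2 ⟨hH1, hH2.trans inter_subset_left⟩, h4 ⟨hH1, hH2.trans inter_subset_right⟩⟩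
  isOpen_sUnion := by
    rintro S hS F ⟨O, hO, hF⟩
    obtain ⟨V, hV, h1, h2⟩ := hS O hO F hF
    exact ⟨V, hV, h1, h2.trans (subset_sUnion_of_mem hO)⟩

/-- The sets `[F, V]` are open. -/
theorem isOpen_box {X : Type u} [TopologicalSpace X] (F : PixleyRoy X) {V : Set X} (hV : IsOpen V) :
    IsOpen (box F V) := by
  rintro H ⟨h1, h2⟩
  exact ⟨V, hV, h2, fun K hK => ⟨h1.trans hK.1, hK.2⟩⟩

/-- The sets `[F, V]` form a local base at `F`. -/
theorem nhds_hasBasis {X : Type u} [TopologicalSpace X] (F : PixleyRoy X) :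
    (𝓝 F).HasBasis (fun V : Set X => IsOpen V ∧ F.1 ⊆ V) (box F) := by
  refine ⟨fun O => ?_⟩
  rw [mem_nhds_iff]
  constructor
  · rintro ⟨P, hPO, hP, hF⟩
    obtain ⟨V, hV, h1, h2⟩ := hP F hF
    exact ⟨V, ⟨hV, h1⟩, h2.trans hPO⟩
  · rintro ⟨V, ⟨hV, h1⟩, h2⟩
    exact ⟨_, h2, isOpen_box F hV, Subset.rfl, h1⟩

/-- in the cofinite topology an open set containing a point is cofinite -/
theorem finite_compl {X : Type u} {V : Set (CofiniteTopology X)} (hV : IsOpen V)
    (hne : V.Nonempty) : Vᶜ.Finite := CofiniteTopology.isOpen_iff.1 hV hne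

/-- the cofinite topology is not SHD -/
theorem not_shd (X : Type u) [Nonempty X] : ¬ SHD (CofiniteTopology X) := by
  intro h
  have : Nonempty (CofiniteTopology X) := (inferInstance : Nonempty X).map CofiniteTopology.of
  obtain ⟨x, -, hx⟩ := h (fun _ => univ) fun _ => ⟨isOpen_univ, univ_nonempty⟩
  by_cases hc : ∃ p, ∃ᶠ k in atTop, x k = p
  · obtain ⟨p, hp⟩ := hc
    obtain ⟨φ, hφ, h1⟩ := extraction_of_frequently_atTop hp
    apply hx φ hφ p
    simp only [h1]
    exact tendsto_const_nhds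
  · push Not at hc
    apply hx id strictMono_id (x 0)
    rw [tendsto_nhds]
    intro V hV hxV
    have h1 := finite_compl hV ⟨_, hxV⟩
    have h2 : ∀ᶠ k in atTop, ∀ p ∈ Vᶜ, x k ≠ p := by
      rw [eventually_all_finite h1]
      intro p _
      simpa using hc p
    filter_upwards [h2] with k hk
    by_contra h3
    exact hk _ h3 rfl

/-- the Pixley-Roy hyperspace of an uncountable space with the cofinite topology is SHD -/
theorem shd (X : Type u) [Uncountable X] : SHD (PixleyRoy (CofiniteTopology X)) := by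
  intro O hO
  choose F hF using fun n => (hO n).2
  choose V hV hFV hbox using fun n => (hO n).1 (F n) (hF n)
  have hc : ∀ n, (V n)ᶜ.Finite := fun n => finite_compl (hV n) ((F n).2.2.mono (hFV n))
  have h1 : (⋃ n, (V n)ᶜ).Countable := countable_iUnion fun n => (hc n).countable
  have hunc : Uncountable (CofiniteTopology X) := CofiniteTopology.of.symm.uncountable_iff.2 inferInstance
  have h2 : (⋃ n, (V n)ᶜ)ᶜ.Infinite := by
    intro hfin
    have h3 := h1.union hfin.countable
    rw [union_compl_self] at h3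
    exact not_countable_univ h3
  obtain ⟨d, hd⟩ : ∃ d : ℕ → CofiniteTopology X, Function.Injective d ∧
      ∀ k, d k ∈ (⋃ n, (V n)ᶜ)ᶜ := by
    refine ⟨fun k => h2.natEmbedding _ k, fun a b hab => ?_, fun k => (h2.natEmbedding _ k).2⟩
    exact (h2.natEmbedding _).injective (Subtype.ext hab)
  have hdV : ∀ n k, d k ∈ V n := by
    intro n k
    have h3 := hd.2 k
    simp only [compl_iUnion, compl_compl, mem_iInter] at h3
    exact h3 n
  refine ⟨fun n => ⟨(F n).1 ∪ d '' Iio n, (F n).2.1.union ((finite_Iio n).image _),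
    (F n).2.2.inl⟩, ?_, ?_⟩
  · intro n
    apply hbox n
    refine ⟨subset_union_left, union_subset (hFV n) ?_⟩
    rintro _ ⟨k, -, rfl⟩
    exact hdV n k
  · intro φ hφ K hK
    have h3 : range d ⊆ K.1 := by
      rintro _ ⟨k, rfl⟩
      by_contra hk
      have hW : IsOpen ({d k}ᶜ : Set (CofiniteTopology X)) := isOpen_compl_singleton
      have hKd : K ∈ box K ({d k}ᶜ : Set (CofiniteTopology X)) := by
        refine ⟨Subset.rfl, fun y hy hyk => hk ?_⟩
        rw [mem_singleton_iff] at hyk
        rw [← hyk]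
        exact hy
      have h4 := hK.eventually ((isOpen_box K hW).mem_nhds hKd)
      have h5 := (hφ.tendsto_atTop).eventually (eventually_gt_atTop k)
      obtain ⟨m, hm1, hm2⟩ := (h4.and h5).exists
      exact hm1.2 (Or.inr ⟨k, hm2, rfl⟩) rfl
    exact infinite_range_of_injective hd.1 (K.2.1.subset h3)

/-- **Main theorem.** There is a `T₁` space that is not SHD although its Pixley-Roy hyperspace is
SHD. -/
theorem result : ∃ (X : Type) (_ : TopologicalSpace X), T1Space X ∧ SHD (PixleyRoy X) ∧ ¬ SHD X :=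
  ⟨CofiniteTopology ℝ, inferInstance, inferInstance, shd ℝ, not_shd ℝ⟩

end Pool.Agent.Results.MP_f85c9e_gt.CofiniteSHD
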